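import Pool.Agent.X283.BZ.Near

set_option autoImplicit false

/-!
# Barnes zeta functions: the mean square of the local maxima
-/

namespace Pool.Agent.X283.BZ

open Finset Filter Topology MeasureTheory Complex Set Asymptotics
open Pool.Agent.H131R5.BZ Pool.Agent.Y930.Bz Pool.Agent.Y616.BM

variable {r : ℕ} {a : ℝ} {w : Fin r → ℝ} {c : ℕ → ℂ}

/-- the mean square of the local maxima in a strip -/
theorem maximal (ha : 0 < a) (hw : ∀ j, 0 < w j) (hc : Tay a w c) {α κ σ₁ τ C₀ : ℝ}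
    (hα : 0 < α) (hκ : 0 < κ) (hκ1 : κ ≤ 1) (hτ : 1 ≤ τ) (hC₀ : 0 ≤ C₀)
    (h : ∀ T : ℝ, 1 ≤ T → ∫⁻ t in Icc 1 T, ‖FF a w c ((α : ℂ) + t * I)‖ₑ ^ 2 ≤
      ENNReal.ofReal (C₀ * T ^ τ)) :
    ∃ C : ℝ, 0 ≤ C ∧ ∀ T : ℝ, 3 ≤ T →
      ∫⁻ u in Icc 3 T, (⨆ (t : ℝ) (_ : |t - u| ≤ 1) (σ : ℝ) (_ : α + κ ≤ σ ∧ σ ≤ σ₁),
        ‖FF a w c ((σ : ℂ) + t * I)‖ₑ ^ 2) ≤ ENNReal.ofReal (C * T ^ τ) := by
  obtain ⟨C, hC, hcb⟩ := cauchy_bound (σ₁ := σ₁) ha hw hc hα hκ hκ1
  set G : ℝ := Real.sqrt (Real.pi / (1 / 2)) with hG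
  set D : ℝ := C + C * (Real.exp 1 * (G * (C₀ * 12 ^ τ))) with hD
  have hD0 : 0 ≤ D := by positivity
  refine ⟨D, hD0, fun T hT => ?_⟩
  have hT0 : 0 < T := by linarith
  set Y : ℝ := 4 * T + 16 with hY
  set f : ℝ → ENNReal := fun y => ‖FF a w c ((α : ℂ) + y * I)‖ₑ ^ 2 with hf
  have hFd : ∀ z : ℂ, 1 ≤ z.im → DifferentiableAt ℂ (FF a w c) z := fun z hz =>
    FF_diff ha hw hc (by
      intro k _ _ h
      have := congrArg Complex.im h
      simp at this
      linarith)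
  have hfm : AEMeasurable f (volume.restrict (Icc 1 Y)) := by
    have h1 : ContinuousOn (fun y : ℝ => FF a w c ((α : ℂ) + y * I)) (Icc 1 Y) := by
      intro y hy
      exact (ContinuousAt.comp (g := FF a w c) (f := fun y : ℝ => (α : ℂ) + y * I)
        (hFd _ (by simpa using hy.1)).continuousAt (by fun_prop)).continuousWithinAt
    exact (h1.aemeasurable measurableSet_Icc).enorm.pow_const 2
  set R : ℝ → ENNReal := fun t => ∫⁻ y in Icc 1 Y, f y * ENNReal.ofReal (Real.exp (-((y - t) ^ 2 / 2)))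
    with hR
  have hprod : AEMeasurable (fun p : ℝ × ℝ => f p.2 * ENNReal.ofReal (Real.exp (-((p.2 - p.1) ^ 2 / 2))))
      ((volume.restrict (Icc 3 T)).prod (volume.restrict (Icc 1 Y))) :=
    AEMeasurable.mul hfm.comp_snd (by fun_prop)
  set S : ℝ → ENNReal := fun t => ENNReal.ofReal C + ENNReal.ofReal C * (ENNReal.ofReal (Real.exp 1) * R t)
    with hS
  -- the large values
  have hsub : ∀ u ∈ Icc 3 T, (⨆ (t : ℝ) (_ : |t - u| ≤ 1) (σ : ℝ) (_ : α + κ ≤ σ ∧ σ ≤ σ₁),
        ‖FF a w c ((σ : ℂ) + t * I)‖ₑ ^ 2) ≤ S u := by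
    intro u hu
    refine iSup₂_le fun t htu => iSup₂_le fun σ hσσ => ?_
    obtain ⟨hσ, hσ1⟩ := hσσ
    obtain ⟨htu1, htu2⟩ := abs_le.1 htu
    have ht2 : 2 ≤ t := by linarith [hu.1]
    have ht0 : 0 < t := by linarith
    have h1 := hcb σ t hσ hσ1 ht2
    set J : ℝ := ∫ y in (1 : ℝ)..(2 * t + 12),
        ‖FF a w c ((α : ℂ) + y * I)‖ ^ 2 * Real.exp (-(y - t) ^ 2) with hJ
    have h3 : ENNReal.ofReal J ≤ ENNReal.ofReal (Real.exp 1) * R u := by
      have h4 : J ≤ (∫⁻ y in Ioc 1 (2 * t + 12),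
          ENNReal.ofReal ‖‖FF a w c ((α : ℂ) + y * I)‖ ^ 2 * Real.exp (-(y - t) ^ 2)‖).toReal := by
        rw [hJ, intervalIntegral.integral_of_le (by linarith)]
        refine (le_abs_self _).trans ?_
        rw [← Real.norm_eq_abs]
        exact norm_integral_le_lintegral_norm _
      refine (ENNReal.ofReal_le_ofReal h4).trans (ENNReal.ofReal_toReal_le.trans ?_)
      have h5 : Ioc 1 (2 * t + 12) ⊆ Icc 1 Y := by
        intro y hy
        have := hu.2
        exact ⟨hy.1.le, by rw [hY]; linarith [hy.2]⟩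
      simp only [hR]
      rw [← lintegral_const_mul' _ _ ENNReal.ofReal_ne_top]
      refine (lintegral_mono_set h5).trans (lintegral_mono fun y => ?_)
      rw [Real.norm_of_nonneg (by positivity), ENNReal.ofReal_mul (by positivity),
        ENNReal.ofReal_pow (norm_nonneg _), ofReal_norm]
      have h6 : Real.exp (-(y - t) ^ 2) ≤ Real.exp 1 * Real.exp (-((y - u) ^ 2 / 2)) := by
        rw [← Real.exp_add]
        apply Real.exp_le_exp.2
        have h7 : (t - u) ^ 2 ≤ 1 := by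
          rw [sq_le_one_iff_abs_le_one]
          exact htu
        nlinarith [sq_nonneg ((y - t) - (t - u))]
      calc f y * ENNReal.ofReal (Real.exp (-(y - t) ^ 2)) ≤
          f y * ENNReal.ofReal (Real.exp 1 * Real.exp (-((y - u) ^ 2 / 2))) := by
            gcongr
        _ = _ := by
            rw [ENNReal.ofReal_mul (Real.exp_pos _).le]
            ring
    have hJ0 : 0 ≤ J := intervalIntegral.integral_nonneg (by linarith) fun y _ => by positivity
    calc ‖FF a w c ((σ : ℂ) + t * I)‖ₑ ^ 2 = ENNReal.ofReal (‖FF a w c ((σ : ℂ) + t * I)‖ ^ 2) := by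
          rw [ENNReal.ofReal_pow (norm_nonneg _), ofReal_norm]
      _ ≤ ENNReal.ofReal (C * (1 + J)) := ENNReal.ofReal_le_ofReal h1
      _ = ENNReal.ofReal C + ENNReal.ofReal C * ENNReal.ofReal J := by
          rw [mul_add, mul_one, ENNReal.ofReal_add hC (by positivity), ENNReal.ofReal_mul hC]
      _ ≤ S u := by
          simp only [hS]
          gcongr
  refine (setLIntegral_mono' measurableSet_Icc hsub).trans ?_
  have h1 : ∫⁻ t in Icc 3 T, R t ≤
      ENNReal.ofReal (G * (C₀ * Y ^ τ)) := by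
    calc ∫⁻ t in Icc 3 T, R t
        = ∫⁻ y in Icc 1 Y, ∫⁻ t in Icc 3 T,
          f y * ENNReal.ofReal (Real.exp (-((y - t) ^ 2 / 2))) :=
          lintegral_lintegral_swap hprod
      _ ≤ ∫⁻ y in Icc 1 Y, f y * ENNReal.ofReal G := by
          refine lintegral_mono fun y => ?_
          have h2 : Measurable fun t : ℝ => ENNReal.ofReal (Real.exp (-((y - t) ^ 2 / 2))) := by
            fun_prop
          rw [lintegral_const_mul _ h2, hG, ← gauss_lint2 y]
          gcongr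
          exact Measure.restrict_le_self
      _ = (∫⁻ y in Icc 1 Y, f y) * ENNReal.ofReal G :=
          lintegral_mul_const' _ _ ENNReal.ofReal_ne_top
      _ ≤ ENNReal.ofReal (C₀ * Y ^ τ) * ENNReal.ofReal G := by
          gcongr
          exact h Y (by rw [hY]; linarith)
      _ = _ := by
          rw [← ENNReal.ofReal_mul (by positivity), mul_comm]
  have h2 : Y ^ τ ≤ 12 ^ τ * T ^ τ := by
    rw [← Real.mul_rpow (by norm_num) hT0.le]
    exact Real.rpow_le_rpow (by positivity) (by rw [hY]; linarith) (by linarith)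
  have h3 : T - 3 ≤ T ^ τ := by
    calc T - 3 ≤ T := by linarith
      _ = T ^ (1 : ℝ) := (Real.rpow_one T).symm
      _ ≤ T ^ τ := Real.rpow_le_rpow_of_exponent_le (by linarith) hτ
  calc ∫⁻ t in Icc 3 T, S t
      = ENNReal.ofReal C * ENNReal.ofReal (T - 3) +
        ENNReal.ofReal C * (ENNReal.ofReal (Real.exp 1) * ∫⁻ t in Icc 3 T, R t) := by
        simp only [hS]
        rw [lintegral_add_left' aemeasurable_const, lintegral_const,
          Measure.restrict_apply_univ, Real.volume_Icc,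
          lintegral_const_mul' _ _ ENNReal.ofReal_ne_top,
          lintegral_const_mul' _ _ ENNReal.ofReal_ne_top]
    _ ≤ ENNReal.ofReal C * ENNReal.ofReal (T ^ τ) +
        ENNReal.ofReal C * (ENNReal.ofReal (Real.exp 1) * ENNReal.ofReal (G * (C₀ * (12 ^ τ * T ^ τ)))) := by
        gcongr
        refine h1.trans (ENNReal.ofReal_le_ofReal ?_)
        gcongr
    _ = _ := by
        rw [← ENNReal.ofReal_mul hC, ← ENNReal.ofReal_mul (Real.exp_pos _).le,
          ← ENNReal.ofReal_mul hC, ← ENNReal.ofReal_add (by positivity) (by positivity)]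
        congr 1
        rw [hD]
        ring

/-- from the local maxima to sums over well spaced sets -/
theorem discrete {F : ℝ → ℝ → ENNReal} {P : ℝ → Prop} {C τ : ℝ}
    (h : ∀ T : ℝ, 3 ≤ T → ∫⁻ u in Icc 3 T, (⨆ (t : ℝ) (_ : |t - u| ≤ 1) (σ : ℝ) (_ : P σ), F σ t) ≤
      ENNReal.ofReal (C * T ^ τ)) {T : ℝ} (hT : 3 ≤ T) (W : Finset ℝ) (σ : ℝ → ℝ)
    (hW : ∀ t ∈ W, 3 ≤ t ∧ t ≤ T) (hsep : ∀ t ∈ W, ∀ u ∈ W, t ≠ u → 1 ≤ |t - u|)
    (hσ : ∀ t ∈ W, P (σ t)) :
    ∑ t ∈ W, F (σ t) t ≤ ENNReal.ofReal (C * 2 ^ τ * T ^ τ) := by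
  set M : ℝ → ENNReal := fun u => ⨆ (t : ℝ) (_ : |t - u| ≤ 1) (σ : ℝ) (_ : P σ), F σ t with hM
  have hdisj : (W : Set ℝ).PairwiseDisjoint (fun t : ℝ => Ico t (t + 1)) := by
    intro t ht u hu htu
    rw [Function.onFun, Set.disjoint_left]
    rintro x ⟨h1, h2⟩ ⟨h3, h4⟩
    have h5 := hsep t ht u hu htu
    rcases le_abs.1 h5 with h6 | h6 <;> linarith
  have h1 : ∀ t ∈ W, F (σ t) t ≤ ∫⁻ u in Ico t (t + 1), M u := by
    intro t ht
    calc F (σ t) t = ∫⁻ _u in Ico t (t + 1), F (σ t) t := by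
          rw [lintegral_const, Measure.restrict_apply_univ, Real.volume_Ico]
          simp
      _ ≤ ∫⁻ u in Ico t (t + 1), M u := by
          refine setLIntegral_mono' measurableSet_Ico fun u hu => ?_
          simp only [hM]
          have h2 : |t - u| ≤ 1 := by
            rw [abs_le]
            constructor <;> linarith [hu.1, hu.2]
          exact le_iSup₂_of_le t h2 (le_iSup₂_of_le (σ t) (hσ t ht) le_rfl)
  calc ∑ t ∈ W, F (σ t) t ≤ ∑ t ∈ W, ∫⁻ u in Ico t (t + 1), M u := Finset.sum_le_sum h1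
    _ = ∫⁻ u in ⋃ t ∈ W, Ico t (t + 1), M u :=
        (lintegral_biUnion_finset hdisj (fun t _ => measurableSet_Ico) _).symm
    _ ≤ ∫⁻ u in Icc 3 (2 * T), M u := by
        refine lintegral_mono_set ?_
        intro u hu
        rw [Set.mem_iUnion₂] at hu
        obtain ⟨t, ht, h2, h3⟩ := hu
        obtain ⟨h4, h5⟩ := hW t ht
        exact ⟨by linarith, by linarith⟩
    _ ≤ ENNReal.ofReal (C * (2 * T) ^ τ) := h (2 * T) (by linarith)
    _ = _ := by
        rw [Real.mul_rpow (by norm_num) (by linarith)]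
        congr 1
        ring

end Pool.Agent.X283.BZ
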