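import Pool.Agent.Y616.BM.Pt3

set_option autoImplicit false

/-!
# Barnes zeta functions: the measure of the neighbourhoods of the exceptional ordinates
-/

namespace Pool.Agent.X283.BZ

open Finset Filter Topology MeasureTheory Complex Set Asymptotics
open Pool.Agent.H131R5.BZ Pool.Agent.Y930.Bz Pool.Agent.Y616.BM

lemma gauss_lint2 (y : ℝ) : ∫⁻ t : ℝ, ENNReal.ofReal (Real.exp (-((y - t) ^ 2 / 2))) =
    ENNReal.ofReal (Real.sqrt (Real.pi / (1 / 2))) := by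
  have h1 : Integrable fun x : ℝ => Real.exp (-(1 / 2) * x ^ 2) := integrable_exp_neg_mul_sq (by norm_num)
  have e : (fun t : ℝ => Real.exp (-((y - t) ^ 2 / 2))) = fun t : ℝ => Real.exp (-(1 / 2) * (y - t) ^ 2) := by
    funext t
    congr 1
    ring
  have h2 : Integrable fun t : ℝ => Real.exp (-((y - t) ^ 2 / 2)) := by
    rw [e]
    exact h1.comp_sub_left y
  rw [← ofReal_integral_eq_lintegral_ofReal h2 (ae_of_all _ fun t => (Real.exp_pos _).le)]
  congr 1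
  rw [e, integral_sub_left_eq_self (fun x : ℝ => Real.exp (-(1 / 2) * x ^ 2)) volume y]
  exact integral_gaussian (1 / 2)

variable {r : ℕ} {a : ℝ} {w : Fin r → ℝ} {c : ℕ → ℂ}

/-- the measure of the ordinates close to one with a large value -/
theorem bad_near (ha : 0 < a) (hw : ∀ j, 0 < w j) (hc : Tay a w c) {α κ σ₁ τ C₀ : ℝ}
    (hα : 0 < α) (hκ : 0 < κ) (hκ1 : κ ≤ 1) (hτ : 1 ≤ τ) (hC₀ : 0 ≤ C₀)
    (h : ∀ T : ℝ, 1 ≤ T → ∫⁻ t in Icc 1 T, ‖FF a w c ((α : ℂ) + t * I)‖ₑ ^ 2 ≤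
      ENNReal.ofReal (C₀ * T ^ τ)) {ε : ℝ} (hε : 0 ≤ ε) :
    ∃ C : ℝ, 0 ≤ C ∧ ∀ T : ℝ, 3 ≤ T →
      volume {u : ℝ | u ∈ Icc T (2 * T) ∧ ∃ t : ℝ, |t - u| ≤ 1 ∧ ∃ σ : ℝ, α + κ ≤ σ ∧ σ ≤ σ₁ ∧
        t ^ ε < ‖FF a w c ((σ : ℂ) + t * I)‖} ≤ ENNReal.ofReal (C * T ^ (τ - 2 * ε)) := by
  obtain ⟨C, hC, hcb⟩ := cauchy_bound (σ₁ := σ₁) ha hw hc hα hκ hκ1
  set G : ℝ := Real.sqrt (Real.pi / (1 / 2)) with hG
  set D : ℝ := C + C * (Real.exp 1 * (G * (C₀ * 12 ^ τ))) with hD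
  have hD0 : 0 ≤ D := by positivity
  refine ⟨D * 2 ^ (2 * ε), by positivity, fun T hT => ?_⟩
  have hT0 : 0 < T := by linarith
  set Y : ℝ := 4 * T + 16 with hY
  set f : ℝ → ENNReal := fun y => ‖FF a w c ((α : ℂ) + y * I)‖ₑ ^ 2 with hf
  have hFd : ∀ z : ℂ, 1 ≤ z.im → DifferentiableAt ℂ (FF a w c) z := fun z hz =>
    FF_diff ha hw hc (by
      intro k _ _ h
      have := congrArg Complex.im h
      simp at this
      linarith)
  have hfm : AEMeasurable f (volume.restrict (Icc 1 Y)) := by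
    have h1 : ContinuousOn (fun y : ℝ => FF a w c ((α : ℂ) + y * I)) (Icc 1 Y) := by
      intro y hy
      exact (ContinuousAt.comp (g := FF a w c) (f := fun y : ℝ => (α : ℂ) + y * I)
        (hFd _ (by simpa using hy.1)).continuousAt (by fun_prop)).continuousWithinAt
    exact (h1.aemeasurable measurableSet_Icc).enorm.pow_const 2
  set R : ℝ → ENNReal := fun t => ∫⁻ y in Icc 1 Y, f y * ENNReal.ofReal (Real.exp (-((y - t) ^ 2 / 2)))
    with hR
  have hprod : AEMeasurable (fun p : ℝ × ℝ => f p.2 * ENNReal.ofReal (Real.exp (-((p.2 - p.1) ^ 2 / 2))))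
      ((volume.restrict (Icc T (2 * T))).prod (volume.restrict (Icc 1 Y))) :=
    AEMeasurable.mul hfm.comp_snd (by fun_prop)
  have hRm : AEMeasurable R (volume.restrict (Icc T (2 * T))) := hprod.lintegral_prod_right'
  set S : ℝ → ENNReal := fun t => ENNReal.ofReal C + ENNReal.ofReal C * (ENNReal.ofReal (Real.exp 1) * R t)
    with hS
  have hSm : AEMeasurable S (volume.restrict (Icc T (2 * T))) :=
    aemeasurable_const.add ((hRm.const_mul _).const_mul _)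
  -- the large values
  have hsub : {u : ℝ | u ∈ Icc T (2 * T) ∧ ∃ t : ℝ, |t - u| ≤ 1 ∧ ∃ σ : ℝ, α + κ ≤ σ ∧ σ ≤ σ₁ ∧
      t ^ ε < ‖FF a w c ((σ : ℂ) + t * I)‖} ⊆
      {t | ENNReal.ofReal ((T / 2) ^ (2 * ε)) ≤ S t} ∩ Icc T (2 * T) := by
    rintro u ⟨hu, t, htu, σ, hσ, hσ1, hbig⟩
    refine ⟨?_, hu⟩
    obtain ⟨htu1, htu2⟩ := abs_le.1 htu
    have ht2 : 2 ≤ t := by linarith [hu.1]
    have ht0 : 0 < t := by linarith
    have h1 := hcb σ t hσ hσ1 ht2
    have h2 : (T / 2) ^ (2 * ε) ≤ ‖FF a w c ((σ : ℂ) + t * I)‖ ^ 2 := by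
      calc (T / 2) ^ (2 * ε) ≤ t ^ (2 * ε) :=
            Real.rpow_le_rpow (by linarith) (by linarith [hu.1]) (by linarith)
        _ = (t ^ ε) ^ 2 := by
            rw [← Real.rpow_natCast, ← Real.rpow_mul ht0.le]
            congr 1
            push_cast
            ring
        _ ≤ _ := by gcongr
    set J : ℝ := ∫ y in (1 : ℝ)..(2 * t + 12),
        ‖FF a w c ((α : ℂ) + y * I)‖ ^ 2 * Real.exp (-(y - t) ^ 2) with hJ
    have h3 : ENNReal.ofReal J ≤ ENNReal.ofReal (Real.exp 1) * R u := by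
      have h4 : J ≤ (∫⁻ y in Ioc 1 (2 * t + 12),
          ENNReal.ofReal ‖‖FF a w c ((α : ℂ) + y * I)‖ ^ 2 * Real.exp (-(y - t) ^ 2)‖).toReal := by
        rw [hJ, intervalIntegral.integral_of_le (by linarith)]
        refine (le_abs_self _).trans ?_
        rw [← Real.norm_eq_abs]
        exact norm_integral_le_lintegral_norm _
      refine (ENNReal.ofReal_le_ofReal h4).trans (ENNReal.ofReal_toReal_le.trans ?_)
      have h5 : Ioc 1 (2 * t + 12) ⊆ Icc 1 Y := by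
        intro y hy
        have := hu.2
        exact ⟨hy.1.le, by rw [hY]; linarith [hy.2]⟩
      simp only [hR]
      rw [← lintegral_const_mul' _ _ ENNReal.ofReal_ne_top]
      refine (lintegral_mono_set h5).trans (lintegral_mono fun y => ?_)
      rw [Real.norm_of_nonneg (by positivity), ENNReal.ofReal_mul (by positivity),
        ENNReal.ofReal_pow (norm_nonneg _), ofReal_norm]
      have h6 : Real.exp (-(y - t) ^ 2) ≤ Real.exp 1 * Real.exp (-((y - u) ^ 2 / 2)) := by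
        rw [← Real.exp_add]
        apply Real.exp_le_exp.2
        have h7 : (t - u) ^ 2 ≤ 1 := by
          rw [sq_le_one_iff_abs_le_one]
          exact htu
        nlinarith [sq_nonneg ((y - t) - (t - u))]
      calc f y * ENNReal.ofReal (Real.exp (-(y - t) ^ 2)) ≤
          f y * ENNReal.ofReal (Real.exp 1 * Real.exp (-((y - u) ^ 2 / 2))) := by
            gcongr
        _ = _ := by
            rw [ENNReal.ofReal_mul (Real.exp_pos _).le]
            ring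
    have hJ0 : 0 ≤ J := intervalIntegral.integral_nonneg (by linarith) fun y _ => by positivity
    calc ENNReal.ofReal ((T / 2) ^ (2 * ε)) ≤ ENNReal.ofReal (C * (1 + J)) :=
          ENNReal.ofReal_le_ofReal (h2.trans h1)
      _ = ENNReal.ofReal C + ENNReal.ofReal C * ENNReal.ofReal J := by
          rw [mul_add, mul_one, ENNReal.ofReal_add hC (by positivity), ENNReal.ofReal_mul hC]
      _ ≤ S u := by
          simp only [hS]
          gcongr
  have hint : ∫⁻ t in Icc T (2 * T), S t ≤ ENNReal.ofReal (D * T ^ τ) := by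
    have h1 : ∫⁻ t in Icc T (2 * T), R t ≤
        ENNReal.ofReal (G * (C₀ * Y ^ τ)) := by
      calc ∫⁻ t in Icc T (2 * T), R t
          = ∫⁻ y in Icc 1 Y, ∫⁻ t in Icc T (2 * T),
            f y * ENNReal.ofReal (Real.exp (-((y - t) ^ 2 / 2))) :=
            lintegral_lintegral_swap hprod
        _ ≤ ∫⁻ y in Icc 1 Y, f y * ENNReal.ofReal G := by
            refine lintegral_mono fun y => ?_
            have h2 : Measurable fun t : ℝ => ENNReal.ofReal (Real.exp (-((y - t) ^ 2 / 2))) := by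
              fun_prop
            rw [lintegral_const_mul _ h2, hG, ← gauss_lint2 y]
            gcongr
            exact Measure.restrict_le_self
        _ = (∫⁻ y in Icc 1 Y, f y) * ENNReal.ofReal G :=
            lintegral_mul_const' _ _ ENNReal.ofReal_ne_top
        _ ≤ ENNReal.ofReal (C₀ * Y ^ τ) * ENNReal.ofReal G := by
            gcongr
            exact h Y (by rw [hY]; linarith)
        _ = _ := by
            rw [← ENNReal.ofReal_mul (by positivity), mul_comm]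
    have h2 : Y ^ τ ≤ 12 ^ τ * T ^ τ := by
      rw [← Real.mul_rpow (by norm_num) hT0.le]
      exact Real.rpow_le_rpow (by positivity) (by rw [hY]; linarith) (by linarith)
    have h3 : T ≤ T ^ τ := by
      calc T = T ^ (1 : ℝ) := (Real.rpow_one T).symm
        _ ≤ T ^ τ := Real.rpow_le_rpow_of_exponent_le (by linarith) hτ
    calc ∫⁻ t in Icc T (2 * T), S t
        = ENNReal.ofReal C * ENNReal.ofReal T +
          ENNReal.ofReal C * (ENNReal.ofReal (Real.exp 1) * ∫⁻ t in Icc T (2 * T), R t) := by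
          simp only [hS]
          rw [lintegral_add_left' aemeasurable_const, lintegral_const,
            Measure.restrict_apply_univ, Real.volume_Icc,
            lintegral_const_mul' _ _ ENNReal.ofReal_ne_top,
            lintegral_const_mul' _ _ ENNReal.ofReal_ne_top]
          congr 3
          ring
      _ ≤ ENNReal.ofReal C * ENNReal.ofReal (T ^ τ) +
          ENNReal.ofReal C * (ENNReal.ofReal (Real.exp 1) * ENNReal.ofReal (G * (C₀ * (12 ^ τ * T ^ τ)))) := by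
          gcongr
          refine h1.trans (ENNReal.ofReal_le_ofReal ?_)
          gcongr
      _ = _ := by
          rw [← ENNReal.ofReal_mul hC, ← ENNReal.ofReal_mul (Real.exp_pos _).le,
            ← ENNReal.ofReal_mul hC, ← ENNReal.ofReal_add (by positivity) (by positivity)]
          congr 1
          rw [hD]
          ring
  have hmark := mul_meas_ge_le_lintegral₀ hSm (ENNReal.ofReal ((T / 2) ^ (2 * ε)))
  have hpos : 0 < (T / 2) ^ (2 * ε) := Real.rpow_pos_of_pos (by linarith) _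
  set B := {u : ℝ | u ∈ Icc T (2 * T) ∧ ∃ t : ℝ, |t - u| ≤ 1 ∧ ∃ σ : ℝ, α + κ ≤ σ ∧ σ ≤ σ₁ ∧
      t ^ ε < ‖FF a w c ((σ : ℂ) + t * I)‖} with hB
  have hvol : volume B ≤ (volume.restrict (Icc T (2 * T)))
      {t | ENNReal.ofReal ((T / 2) ^ (2 * ε)) ≤ S t} := by
    refine (measure_mono hsub).trans ?_
    exact Measure.le_restrict_apply _ _
  have hkey : ENNReal.ofReal ((T / 2) ^ (2 * ε)) * volume B ≤ ENNReal.ofReal (D * T ^ τ) :=
    (mul_le_mul_right hvol _).trans (hmark.trans hint)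
  have e1 : ENNReal.ofReal (D * 2 ^ (2 * ε) * T ^ (τ - 2 * ε)) =
      ENNReal.ofReal (((T / 2) ^ (2 * ε))⁻¹) * ENNReal.ofReal (D * T ^ τ) := by
    rw [← ENNReal.ofReal_mul (by positivity)]
    congr 1
    rw [Real.rpow_sub hT0, Real.div_rpow hT0.le (by norm_num)]
    field_simp
  rw [e1]
  calc volume B = ENNReal.ofReal (((T / 2) ^ (2 * ε))⁻¹) *
        (ENNReal.ofReal ((T / 2) ^ (2 * ε)) * volume B) := by
        rw [← mul_assoc, ← ENNReal.ofReal_mul (by positivity), inv_mul_cancel₀ hpos.ne',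
          ENNReal.ofReal_one, one_mul]
    _ ≤ _ := by gcongr

/-- the number of the integers close to an exceptional ordinate -/
theorem bad_count (ha : 0 < a) (hw : ∀ j, 0 < w j) (hc : Tay a w c) {α κ σ₁ τ C₀ : ℝ}
    (hα : 0 < α) (hκ : 0 < κ) (hκ1 : κ ≤ 1) (hτ : 1 ≤ τ) (hC₀ : 0 ≤ C₀)
    (h : ∀ T : ℝ, 1 ≤ T → ∫⁻ t in Icc 1 T, ‖FF a w c ((α : ℂ) + t * I)‖ₑ ^ 2 ≤
      ENNReal.ofReal (C₀ * T ^ τ)) {ε : ℝ} (hε : 0 ≤ ε) :
    ∃ C : ℝ, 0 ≤ C ∧ ∀ K : ℕ, 3 ≤ K →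
      ({n : ℕ | (∃ t : ℝ, (n : ℝ) ≤ t ∧ t < n + 1 ∧ ∃ σ : ℝ, α + κ ≤ σ ∧ σ ≤ σ₁ ∧
        t ^ ε < ‖FF a w c ((σ : ℂ) + t * I)‖) ∧ K < n ∧ n ≤ 2 * K}.ncard : ℝ) ≤
        C * ((K : ℝ) + 1) ^ (τ - 2 * ε) := by
  obtain ⟨C, hC, hb⟩ := bad_near (σ₁ := σ₁) ha hw hc hα hκ hκ1 hτ hC₀ h hε
  refine ⟨C, hC, fun K hK => ?_⟩
  have hK3 : (3 : ℝ) ≤ K := by exact_mod_cast hK
  set A : Set ℕ := {n : ℕ | (∃ t : ℝ, (n : ℝ) ≤ t ∧ t < n + 1 ∧ ∃ σ : ℝ, α + κ ≤ σ ∧ σ ≤ σ₁ ∧
        t ^ ε < ‖FF a w c ((σ : ℂ) + t * I)‖) ∧ K < n ∧ n ≤ 2 * K} with hA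
  have hfin : A.Finite := (Set.finite_Iic (2 * K)).subset fun n hn => hn.2.2
  set M := hfin.toFinset with hM
  have hdisj : (M : Set ℕ).PairwiseDisjoint (fun n : ℕ => Ico (n : ℝ) (n + 1)) := by
    intro m _ n _ hmn
    rw [Function.onFun, Set.disjoint_left]
    rintro x ⟨h1, h2⟩ ⟨h3, h4⟩
    apply hmn
    have h5 : (m : ℝ) < n + 1 := by linarith
    have h6 : (n : ℝ) < m + 1 := by linarith
    have h7 : m < n + 1 := by exact_mod_cast h5
    have h8 : n < m + 1 := by exact_mod_cast h6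
    omega
  have h1 : volume (⋃ n ∈ M, Ico (n : ℝ) (n + 1)) = (M.card : ENNReal) := by
    rw [measure_biUnion_finset hdisj fun n _ => measurableSet_Ico]
    simp
  have h2 : (⋃ n ∈ M, Ico (n : ℝ) (n + 1)) ⊆ {u : ℝ | u ∈ Icc ((K : ℝ) + 1) (2 * ((K : ℝ) + 1)) ∧
      ∃ t : ℝ, |t - u| ≤ 1 ∧ ∃ σ : ℝ, α + κ ≤ σ ∧ σ ≤ σ₁ ∧ t ^ ε < ‖FF a w c ((σ : ℂ) + t * I)‖} := by
    intro u hu
    rw [Set.mem_iUnion₂] at hu
    obtain ⟨n, hn, hu1, hu2⟩ := hu
    rw [hM, Set.Finite.mem_toFinset] at hn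
    obtain ⟨⟨t, ht1, ht2, hσ⟩, hn1, hn2⟩ := hn
    have hn1' : (K : ℝ) + 1 ≤ n := by exact_mod_cast hn1
    have hn2' : (n : ℝ) ≤ 2 * K := by exact_mod_cast hn2
    refine ⟨⟨by linarith, by linarith⟩, t, ?_, hσ⟩
    rw [abs_le]
    constructor <;> linarith
  have h3 := (measure_mono h2).trans (hb ((K : ℝ) + 1) (by linarith))
  rw [h1] at h3
  have h4 : A.ncard = M.card := by
    rw [hM, ← Set.ncard_coe_finset, Set.Finite.coe_toFinset]
  rw [h4]
  have h5 : 0 ≤ C * ((K : ℝ) + 1) ^ (τ - 2 * ε) := by positivity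
  have h6 : ENNReal.ofReal (M.card : ℝ) ≤ ENNReal.ofReal (C * ((K : ℝ) + 1) ^ (τ - 2 * ε)) := by
    rw [ENNReal.ofReal_natCast]
    exact h3
  exact (ENNReal.ofReal_le_ofReal_iff h5).1 h6

end Pool.Agent.X283.BZ
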